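import Pool.Agent.TH128.SYZ.Psef

/-!
# Nef line bundles and line bundles with a section are pseudo-effective
-/

set_option autoImplicit false

namespace Pool.Agent.TH128.SYZ

open Pool.Agent.W594.SYZ2

theorem norm_le_circleAverage {f : ℂ → ℂ} (hf : Differentiable ℂ f) (R : ℝ) :
    ‖f 0‖ ≤ Real.circleAverage (fun z => ‖f z‖) 0 R := by
  have h1 : Real.circleAverage f 0 R = f 0 :=
    (hf.diffContOnCl (s := Metric.ball 0 |R|)).circleAverage
  rw [← h1, Real.circleAverage, Real.circleAverage, norm_smul, Real.norm_eq_abs,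
    abs_of_pos (inv_pos.2 Real.two_pi_pos), smul_eq_mul]
  refine mul_le_mul_of_nonneg_left ?_ (inv_pos.2 Real.two_pi_pos).le
  exact intervalIntegral.norm_integral_le_integral_norm (le_of_lt Real.two_pi_pos)

variable {V : Type*} [NormedAddCommGroup V] [NormedSpace ℂ V] [FiniteDimensional ℂ V]
  {Γ : Subgroup (V ≃ᵃ[ℂ] V)} {L : LineBundle Γ} {H : V → V → ℂ}

omit [FiniteDimensional ℂ V] in
/-- The square of the absolute value of a holomorphic function is log-plurisubharmonic. -/
theorem isLogPsh_norm_sq {s : V → ℂ} (hs : Differentiable ℂ s) :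
    IsLogPsh (fun v => ‖s v‖ ^ 2) where
  nonneg v := sq_nonneg _
  usc := ((hs.continuous.norm).pow 2).upperSemicontinuous
  mean g hg x u R := by
    have h1 : Differentiable ℂ fun z : ℂ => x + z • u :=
      (differentiable_id.smul_const u).const_add x
    have h2 := norm_le_circleAverage (((hs.comp h1).pow 2).mul ((hg.comp h1).cexp)) R
    simpa only [Pi.mul_apply, Pi.pow_apply, Function.comp_apply, zero_smul, add_zero, norm_mul,
      norm_pow] using h2

/-- A nef line bundle is pseudo-effective. -/
theorem psef_of_nef (hc : IsChernForm L H) (hn : IsNefForm H) : IsPseudoEffective L := by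
  obtain ⟨hH, F, hF, hLF⟩ := hc
  refine ⟨fun v => Real.exp (Real.pi * (H v v).re + 2 * (F v).re), ⟨fun v => (Real.exp_pos _).le,
    ?_, ?_⟩, ?_, ?_⟩
  · have hHc : Continuous fun v => (H v v).re := by
      have : FiniteDimensional ℝ V := FiniteDimensional.complexToReal V
      let B : V →ₗ[ℝ] V →ₗ[ℝ] ℝ := LinearMap.mk₂ ℝ (fun x y => (H x y).re)
        (fun x x' y => by rw [hH.add_left, Complex.add_re])
        (fun c x y => by
          have : c • x = (c : ℂ) • x := (Complex.coe_smul c x).symm
          rw [this, hH.smul_left, Complex.re_ofReal_mul, smul_eq_mul])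
        (fun x y y' => by rw [TQ.h_add_right hH, Complex.add_re])
        (fun c x y => by
          have : c • y = (c : ℂ) • y := (Complex.coe_smul c y).symm
          rw [this, TQ.h_smul_right hH, Complex.conj_ofReal, Complex.re_ofReal_mul, smul_eq_mul])
      have h1 : (fun v => (H v v).re) = fun v => B v v := rfl
      rw [h1]
      let B' : V →L[ℝ] V →L[ℝ] ℝ := LinearMap.toContinuousLinearMap
        ((LinearMap.toContinuousLinearMap : (V →ₗ[ℝ] ℝ) ≃ₗ[ℝ] (V →L[ℝ] ℝ)).toLinearMap ∘ₗ B)
      have h2 : (fun v => B v v) = fun v => B' v v := rfl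
      rw [h2]
      exact (B'.continuous).clm_apply continuous_id
    exact (Real.continuous_exp.comp ((hHc.const_mul Real.pi).add
      ((Complex.continuous_re.comp hF.continuous).const_mul 2))).upperSemicontinuous
  · intro g hg x u R
    let G : ℂ → ℂ := fun z => g (x + z • u) + 2 * F (x + z • u) + 2 * Real.pi * (z * H u x)
    have h1 : Differentiable ℂ fun z : ℂ => x + z • u :=
      (differentiable_id.smul_const u).const_add x
    have hG : Differentiable ℂ G :=
      ((hg.comp h1).add ((hF.comp h1).const_mul 2)).add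
        ((differentiable_id.mul_const (H u x)).const_mul (2 * (Real.pi : ℂ)))
    have h2 : ∀ z : ℂ, Real.exp (Real.pi * (H (x + z • u) (x + z • u)).re +
        2 * (F (x + z • u)).re) * ‖Complex.exp (g (x + z • u))‖ =
        Real.exp (Real.pi * (H x x).re + Real.pi * (‖z‖ ^ 2 * (H u u).re)) *
          ‖Complex.exp (G z)‖ := by
      intro z
      rw [Complex.norm_exp, Complex.norm_exp, ← Real.exp_add, ← Real.exp_add, h_line hH]
      congr 1
      have h3 : (G z).re = (g (x + z • u)).re + 2 * (F (x + z • u)).re +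
          2 * Real.pi * (z * H u x).re := by
        simp only [G, Complex.add_re]
        have h4 : (2 * (Real.pi : ℂ) * (z * H u x)).re = 2 * Real.pi * (z * H u x).re := by
          rw [mul_assoc, mul_assoc]
          rw [show (2 : ℂ) = ((2 : ℝ) : ℂ) by norm_num, Complex.re_ofReal_mul,
            Complex.re_ofReal_mul]
        have h5 : (2 * F (x + z • u)).re = 2 * (F (x + z • u)).re := by
          rw [show (2 : ℂ) = ((2 : ℝ) : ℂ) by norm_num, Complex.re_ofReal_mul]
        rw [h4, h5]
      rw [h3]
      ring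
    have h3 : Real.circleAverage (fun z : ℂ => Real.exp (Real.pi *
        (H (x + z • u) (x + z • u)).re + 2 * (F (x + z • u)).re) *
          ‖Complex.exp (g (x + z • u))‖) 0 R =
        Real.exp (Real.pi * (H x x).re + Real.pi * (R ^ 2 * (H u u).re)) *
          Real.circleAverage (fun z => ‖Complex.exp (G z)‖) 0 R := by
      rw [← smul_eq_mul, ← Real.circleAverage_fun_smul]
      refine Real.circleAverage_congr_sphere fun z hz => ?_
      have h4 : ‖z‖ ^ 2 = R ^ 2 := by
        rw [mem_sphere_zero_iff_norm] at hz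
        rw [hz, sq_abs]
      simp only [smul_eq_mul]
      rw [h2, h4]
    rw [h3]
    have h4 := norm_le_circleAverage (hG.cexp) R
    have h5 := h2 0
    simp only [zero_smul, add_zero, norm_zero, ne_eq, OfNat.ofNat_ne_zero, not_false_eq_true,
      zero_pow, zero_mul, mul_zero] at h5
    rw [h5]
    refine mul_le_mul (Real.exp_le_exp.2 ?_) h4 (norm_nonneg _) (Real.exp_pos _).le
    have h6 := mul_nonneg Real.pi_pos.le (mul_nonneg (sq_nonneg R) (hn u))
    linarith
  · intro h
    have := congrFun h 0
    exact absurd this (Real.exp_pos _).ne'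
  · intro γ v
    change Real.exp (Real.pi * (H ((γ : V ≃ᵃ[ℂ] V) v) ((γ : V ≃ᵃ[ℂ] V) v)).re +
      2 * (F ((γ : V ≃ᵃ[ℂ] V) v)).re) =
        ‖L.e γ v‖ ^ 2 * Real.exp (Real.pi * (H v v).re + 2 * (F v).re)
    rw [hLF γ v, ← Real.exp_add]
    congr 1
    ring

/-- A line bundle with a nonzero section is pseudo-effective. -/
theorem psef_of_section {s : V → ℂ} (hs : L.IsSection s) (h0 : s ≠ 0) : IsPseudoEffective L := by
  refine ⟨fun v => ‖s v‖ ^ 2, isLogPsh_norm_sq hs.holo, ?_, fun γ v => ?_⟩
  · intro h
    apply h0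
    funext v
    have h1 : ‖s v‖ ^ 2 = 0 := congrFun h v
    exact norm_eq_zero.1 (pow_eq_zero_iff two_ne_zero |>.1 h1)
  · change ‖s ((γ : V ≃ᵃ[ℂ] V) v)‖ ^ 2 = ‖L.e γ v‖ ^ 2 * ‖s v‖ ^ 2
    rw [hs.eq, norm_mul, mul_pow]

/-- On a torus quotient, pseudo-effective and nef are the same. -/
theorem psef_iff_nef (hΓ : IsTorusQuotient Γ) (hc : IsChernForm L H) :
    IsPseudoEffective L ↔ IsNefForm H :=
  ⟨nef_of_psef hΓ hc, psef_of_nef hc⟩

end Pool.Agent.TH128.SYZ
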