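import Pool.Agent.W594.SYZ.TQDefs

/-!
# Pseudo-effective line bundles on torus quotients: definitions
-/

set_option autoImplicit false

namespace Pool.Agent.TH128.SYZ

open Pool.Agent.W594.SYZ2

variable {V : Type*} [NormedAddCommGroup V] [NormedSpace ℂ V]

/-- The function `φ = exp ψ : V → [0, ∞)` is log-plurisubharmonic, that is, `ψ = log φ` is
plurisubharmonic: `φ` is upper semicontinuous and for every holomorphic function `g` on `V` the
function `φ |exp g|` satisfies the submean value inequality for all circles in complex lines. -/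
structure IsLogPsh (φ : V → ℝ) : Prop where
  nonneg : ∀ v, 0 ≤ φ v
  usc : UpperSemicontinuous φ
  mean : ∀ g : V → ℂ, Differentiable ℂ g → ∀ (x u : V) (R : ℝ),
    φ x * ‖Complex.exp (g x)‖ ≤
      Real.circleAverage (fun z : ℂ => φ (x + z • u) * ‖Complex.exp (g (x + z • u))‖) 0 R

/-- The line bundle `L` on `X = V / Γ` is pseudo-effective: it has a singular hermitian metric whose
curvature is a positive current. The metric is given by `‖s(v)‖² = |s(v)|² / φ(v)` for sections
`s` of `L`, with a function `φ` on `V` that is log-plurisubharmonic and not identically zero. -/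
def IsPseudoEffective {Γ : Subgroup (V ≃ᵃ[ℂ] V)} (L : LineBundle Γ) : Prop :=
  ∃ φ : V → ℝ, IsLogPsh φ ∧ φ ≠ 0 ∧
    ∀ (γ : Γ) (v : V), φ ((γ : V ≃ᵃ[ℂ] V) v) = ‖L.e γ v‖ ^ 2 * φ v

end Pool.Agent.TH128.SYZ
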