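import Pool.Agent.W594.SYZ.TQ6
import Pool.Agent.TH128.SYZ.PsefDefs

/-!
# Pseudo-effective line bundles on torus quotients are nef
-/

set_option autoImplicit false

namespace Pool.Agent.TH128.SYZ

open Pool.Agent.W594.SYZ2

variable {V : Type*} [NormedAddCommGroup V] [NormedSpace ℂ V] [FiniteDimensional ℂ V]
  {Γ : Subgroup (V ≃ᵃ[ℂ] V)} {L : LineBundle Γ} {H : V → V → ℂ}

/-- Expansion of the hermitian form on a line. -/
theorem h_line (hH : IsHermitian H) (x u : V) (z : ℂ) :
    (H (x + z • u) (x + z • u)).re =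
      (H x x).re + 2 * (z * H u x).re + ‖z‖ ^ 2 * (H u u).re := by
  have h1 : H (x + z • u) (x + z • u) = H x x + (starRingEnd ℂ) (z * H u x) + z * H u x +
      (z * (starRingEnd ℂ) z) * H u u := by
    rw [hH.add_left, hH.smul_left, TQ.h_add_right hH, TQ.h_add_right hH, TQ.h_smul_right hH,
      TQ.h_smul_right hH, hH.symm u x, map_mul]
    ring
  rw [h1, Complex.mul_conj]
  simp only [Complex.add_re, Complex.conj_re, Complex.re_ofReal_mul, Complex.normSq_eq_norm_sq]
  ring

theorem nef_of_psef (hΓ : IsTorusQuotient Γ) (hc : IsChernForm L H) (hp : IsPseudoEffective L) :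
    IsNefForm H := by
  have hproper : ProperSpace V := FiniteDimensional.proper ℂ V
  obtain ⟨hH, F, hF, hLF⟩ := hc
  obtain ⟨φ, hφ, hφ0, hφγ⟩ := hp
  -- the invariant function
  let ρ : V → ℝ := fun v => φ v * Real.exp (-(Real.pi * (H v v).re + 2 * (F v).re))
  have hρ : ∀ (γ : Γ) (v : V), ρ ((γ : V ≃ᵃ[ℂ] V) v) = ρ v := by
    intro γ v
    simp only [ρ]
    rw [hφγ, hLF γ v, mul_right_comm, ← Real.exp_add, mul_comm]
    congr 2
    ring
  -- it is bounded
  obtain ⟨C, hC⟩ := TQ.cobounded (latt Γ) hΓ.span_top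
  have hHc : Continuous fun v => (H v v).re := by
    have : FiniteDimensional ℝ V := FiniteDimensional.complexToReal V
    let B : V →ₗ[ℝ] V →ₗ[ℝ] ℝ := LinearMap.mk₂ ℝ (fun x y => (H x y).re)
      (fun x x' y => by rw [hH.add_left, Complex.add_re])
      (fun c x y => by
        have : c • x = (c : ℂ) • x := (Complex.coe_smul c x).symm
        rw [this, hH.smul_left, Complex.re_ofReal_mul, smul_eq_mul])
      (fun x y y' => by rw [TQ.h_add_right hH, Complex.add_re])
      (fun c x y => by
        have : c • y = (c : ℂ) • y := (Complex.coe_smul c y).symm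
        rw [this, TQ.h_smul_right hH, Complex.conj_ofReal, Complex.re_ofReal_mul, smul_eq_mul])
    have h1 : (fun v => (H v v).re) = fun v => B v v := rfl
    rw [h1]
    let B' : V →L[ℝ] V →L[ℝ] ℝ := LinearMap.toContinuousLinearMap
      ((LinearMap.toContinuousLinearMap : (V →ₗ[ℝ] ℝ) ≃ₗ[ℝ] (V →L[ℝ] ℝ)).toLinearMap ∘ₗ B)
    have h2 : (fun v => B v v) = fun v => B' v v := rfl
    rw [h2]
    exact (B'.continuous).clm_apply continuous_id
  have hK : IsCompact (Metric.closedBall (0 : V) C) := isCompact_closedBall _ _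
  obtain ⟨b1, hb1⟩ := (hφ.usc.upperSemicontinuousOn (Metric.closedBall (0 : V) C)).bddAbove_of_isCompact
    hK
  have hexpc : Continuous fun v => Real.exp (-(Real.pi * (H v v).re + 2 * (F v).re)) :=
    Real.continuous_exp.comp ((hHc.const_mul Real.pi).add
      ((Complex.continuous_re.comp hF.continuous).const_mul 2)).neg
  obtain ⟨b2, hb2⟩ := (hK.image hexpc).bddAbove
  have hb1' : ∀ v, ‖v‖ ≤ C → φ v ≤ b1 := fun v hv =>
    hb1 ⟨v, by rwa [mem_closedBall_zero_iff], rfl⟩
  have hb2' : ∀ v, ‖v‖ ≤ C → Real.exp (-(Real.pi * (H v v).re + 2 * (F v).re)) ≤ b2 :=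
    fun v hv => hb2 ⟨v, by rwa [mem_closedBall_zero_iff], rfl⟩
  have hbound : ∀ v, ρ v ≤ |b1| * |b2| := by
    intro v
    obtain ⟨c, hc, hcC⟩ := hC v
    have h1 := hρ ⟨AffineEquiv.constVAdd ℂ V c, hc⟩ v
    change ρ (c + v) = ρ v at h1
    rw [← h1]
    exact mul_le_mul ((hb1' _ hcC).trans (le_abs_self _)) ((hb2' _ hcC).trans (le_abs_self _))
      (Real.exp_pos _).le (abs_nonneg _)
  set B := |b1| * |b2| with hB
  have hB0 : 0 ≤ B := mul_nonneg (abs_nonneg _) (abs_nonneg _)
  have hφle : ∀ v, φ v ≤ B * Real.exp (Real.pi * (H v v).re + 2 * (F v).re) := by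
    intro v
    have h1 := hbound v
    simp only [ρ] at h1
    rw [Real.exp_neg, ← div_eq_mul_inv, div_le_iff₀ (Real.exp_pos _)] at h1
    exact h1
  -- negative directions
  intro u
  by_contra! hneg
  apply hφ0
  funext x
  rw [Pi.zero_apply]
  let g : V → ℂ := fun y => -2 * F y - 2 * Real.pi * H (y - x) x
  have hg : Differentiable ℂ g := by
    refine (hF.const_mul (-2)).sub (Differentiable.const_mul ?_ _)
    have h1 : (fun y => H (y - x) x) = fun y => LinearMap.toContinuousLinearMap
        (TQ.hl hH x) (y - x) := rfl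
    rw [h1]
    exact (ContinuousLinearMap.differentiable _).comp (differentiable_id.sub_const x)
  have hline : ∀ z : ℂ, φ (x + z • u) * ‖Complex.exp (g (x + z • u))‖ ≤
      B * Real.exp (Real.pi * (H x x).re + Real.pi * (‖z‖ ^ 2 * (H u u).re)) := by
    intro z
    have h1 : (g (x + z • u)).re = -2 * (F (x + z • u)).re - 2 * Real.pi * (z * H u x).re := by
      simp only [g]
      rw [add_sub_cancel_left, hH.smul_left]
      have h2 : (2 * (Real.pi : ℂ) * (z * H u x)).re = 2 * Real.pi * (z * H u x).re := by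
        rw [mul_assoc, mul_assoc]
        rw [show (2 : ℂ) = ((2 : ℝ) : ℂ) by norm_num, Complex.re_ofReal_mul,
          Complex.re_ofReal_mul]
      have h3 : (-2 * F (x + z • u)).re = -2 * (F (x + z • u)).re := by
        rw [show (-2 : ℂ) = ((-2 : ℝ) : ℂ) by norm_num, Complex.re_ofReal_mul]
      rw [Complex.sub_re, h2, h3]
    rw [Complex.norm_exp, h1]
    refine (mul_le_mul_of_nonneg_right (hφle _) (Real.exp_pos _).le).trans ?_
    rw [mul_assoc, ← Real.exp_add, h_line hH]
    refine mul_le_mul_of_nonneg_left (Real.exp_le_exp.2 (le_of_eq ?_)) hB0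
    ring
  have hmean : ∀ R : ℝ, φ x * ‖Complex.exp (g x)‖ ≤
      B * Real.exp (Real.pi * (H x x).re + Real.pi * (R ^ 2 * (H u u).re)) := by
    intro R
    refine (hφ.mean g hg x u R).trans ?_
    have h0 : 0 ≤ B * Real.exp (Real.pi * (H x x).re + Real.pi * (R ^ 2 * (H u u).re)) :=
      mul_nonneg hB0 (Real.exp_pos _).le
    by_cases hint : CircleIntegrable
      (fun z : ℂ => φ (x + z • u) * ‖Complex.exp (g (x + z • u))‖) 0 R
    · refine Real.circleAverage_mono_on_of_le_circle hint fun z hz => ?_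
      have h1 : ‖z‖ ^ 2 = R ^ 2 := by
        rw [mem_sphere_zero_iff_norm] at hz
        rw [hz, sq_abs]
      rw [← h1]
      exact hline z
    · rw [Real.circleAverage.integral_undef hint]
      exact h0
  -- let the radius tend to infinity
  have hlim : Filter.Tendsto
      (fun R : ℝ => B * Real.exp (Real.pi * (H x x).re + Real.pi * (R ^ 2 * (H u u).re)))
      Filter.atTop (nhds 0) := by
    rw [← mul_zero B]
    refine Filter.Tendsto.const_mul B (Real.tendsto_exp_atBot.comp ?_)
    refine Filter.tendsto_atBot_add_const_left _ _ ?_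
    have h1 : (fun R : ℝ => Real.pi * (R ^ 2 * (H u u).re)) =
        fun R : ℝ => (Real.pi * (H u u).re) * R ^ 2 := by
      funext R
      ring
    rw [h1]
    exact (Filter.tendsto_pow_atTop (two_ne_zero)).const_mul_atTop_of_neg
      (mul_neg_of_pos_of_neg Real.pi_pos hneg)
  have h1 : φ x * ‖Complex.exp (g x)‖ ≤ 0 := ge_of_tendsto' hlim hmean
  have h2 : 0 < ‖Complex.exp (g x)‖ := norm_pos_iff.2 (Complex.exp_ne_zero _)
  refine le_antisymm ?_ (hφ.nonneg x)
  by_contra! h3
  exact absurd (mul_pos h3 h2) (not_lt.2 h1)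

end Pool.Agent.TH128.SYZ
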